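import Mathlib

/-!
# Sums over the region `|b| ≤ |a|`, `a ^ 2 |b| ≤ N ^ 3` from sums over squares
-/

set_option autoImplicit false
set_option linter.unusedSectionVars false

namespace Run7.h318.DI

open Finset

/-- the square -/
noncomputable def Q (x : ℤ × ℤ) (X : ℕ) : Finset (ℤ × ℤ) := Ioc x.1 (x.1 + X) ×ˢ Ioc x.2 (x.2 + X)

/-- the bound for squares -/
def SqB (v : ℤ × ℤ → ℝ) (K : ℕ) (C : ℝ) : Prop :=
  ∀ (x : ℤ × ℤ) (X : ℕ), 1 ≤ X → x.1.natAbs ≤ X ^ K → x.2.natAbs ≤ X ^ K →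
    ∑ t ∈ Q x X, v t ≤ C * (X : ℝ) ^ 2

/-- the rectangle -/
noncomputable def Rc (h p q : ℕ) : Finset (ℤ × ℤ) :=
  Ioc (-((p * h : ℕ) : ℤ)) ((p * h : ℕ) : ℤ) ×ˢ Ioc (-((q * h : ℕ) : ℤ)) ((q * h : ℕ) : ℤ)

lemma rect {v : ℤ × ℤ → ℝ} (hv : ∀ t, 0 ≤ v t) {K : ℕ} {C : ℝ} (hC : SqB v K C)
    {h p q : ℕ} (hh : 1 ≤ h) (hp : p * h ≤ h ^ K) (hq : q * h ≤ h ^ K) :
    ∑ t ∈ Rc h p q, v t ≤ 4 * p * q * (C * (h : ℝ) ^ 2) := by
  classical
  have hh0 : (0 : ℤ) < h := by exact_mod_cast hh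
  set g : ℤ × ℤ → ℤ × ℤ := fun t => ((t.1 - 1) / h, (t.2 - 1) / h) with hg
  set I : Finset (ℤ × ℤ) := Ico (-(p : ℤ)) p ×ˢ Ico (-(q : ℤ)) q with hI
  have hcell : ∀ (m : ℕ) (a : ℤ), a ∈ Ioc (-((m * h : ℕ) : ℤ)) ((m * h : ℕ) : ℤ) →
      (a - 1) / h ∈ Ico (-(m : ℤ)) m := by
    intro m a ha
    rw [mem_Ioc] at ha
    push_cast at ha
    rw [mem_Ico]
    constructor
    · rw [Int.le_ediv_iff_mul_le hh0]
      linarith [ha.1]
    · rw [Int.ediv_lt_iff_lt_mul hh0]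
      linarith [ha.2]
  have hmaps : ∀ t ∈ Rc h p q, g t ∈ I := by
    intro t ht
    unfold Rc at ht
    rw [mem_product] at ht
    rw [hI, mem_product]
    exact ⟨hcell p t.1 ht.1, hcell q t.2 ht.2⟩
  rw [← sum_fiberwise_of_maps_to hmaps]
  have hin : ∀ a i : ℤ, (a - 1) / h = i → i * h < a ∧ a ≤ i * h + h := by
    intro a i hi
    have h1 : i * h ≤ a - 1 := by
      rw [← Int.le_ediv_iff_mul_le hh0, hi]
    have h2 : a - 1 < (i + 1) * h := by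
      rw [← Int.ediv_lt_iff_lt_mul hh0, hi]
      linarith
    constructor
    · linarith
    · linarith
  have hsz : ∀ (m : ℕ) (i : ℤ), m * h ≤ h ^ K → i ∈ Ico (-(m : ℤ)) m → (i * h).natAbs ≤ h ^ K := by
    intro m i hm hi
    rw [mem_Ico] at hi
    have h1 : (i * (h : ℤ)).natAbs = i.natAbs * h := by
      rw [Int.natAbs_mul, Int.natAbs_natCast]
    rw [h1]
    have h2 : i.natAbs ≤ m := by omega
    exact (Nat.mul_le_mul_right h h2).trans hm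
  have key : ∀ ij ∈ I, ∑ t ∈ Rc h p q with g t = ij, v t ≤ C * (h : ℝ) ^ 2 := by
    intro ij hij
    rw [hI, mem_product] at hij
    refine le_trans ?_ (hC (ij.1 * h, ij.2 * h) h hh (hsz p ij.1 hp hij.1) (hsz q ij.2 hq hij.2))
    apply sum_le_sum_of_subset_of_nonneg
    · intro t ht
      rw [mem_filter] at ht
      have e := ht.2
      rw [hg, Prod.ext_iff] at e
      simp only at e
      obtain ⟨a1, a2⟩ := hin _ _ e.1
      obtain ⟨b1, b2⟩ := hin _ _ e.2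
      unfold Q
      rw [mem_product, mem_Ioc, mem_Ioc]
      exact ⟨⟨a1, a2⟩, b1, b2⟩
    · intro t _ _
      exact hv t
  refine (sum_le_sum key).trans ?_
  rw [sum_const, nsmul_eq_mul, hI, card_product, Int.card_Ico, Int.card_Ico]
  have e1 : ((p : ℤ) - -(p : ℤ)).toNat = 2 * p := by omega
  have e2 : ((q : ℤ) - -(q : ℤ)).toNat = 2 * q := by omega
  rw [e1, e2]
  push_cast
  apply le_of_eq
  ring

/-- membership in one of the rectangles -/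
lemma cover {h : ℕ} (hh : 2 ≤ h) {t : ℤ × ℤ} (h0 : t.2 ≠ 0) (h1 : |t.2| ≤ |t.1|)
    (h2 : t.1 ^ 2 * |t.2| ≤ ((h : ℤ) ^ 4) ^ 3) :
    ∃ j : ℕ, 2 ^ j ≤ h ^ 2 ∧ t ∈ Rc h (2 ^ (j + 1) * h ^ 3 + 1) (h ^ 3 / 4 ^ j + 1) := by
  classical
  have hh0 : 0 < h := by omega
  set N : ℤ := (h : ℤ) ^ 4 with hN
  have hN0 : 0 < N := by positivity
  have ht0 : 1 ≤ |t.2| := Int.one_le_abs h0
  -- it is enough to have the two bounds
  have suff : ∀ j : ℕ, |t.1| ≤ 2 ^ (j + 1) * N → |t.2| * 4 ^ j ≤ N →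
      ∃ j : ℕ, 2 ^ j ≤ h ^ 2 ∧ t ∈ Rc h (2 ^ (j + 1) * h ^ 3 + 1) (h ^ 3 / 4 ^ j + 1) := by
    intro j ha hb
    refine ⟨j, ?_, ?_⟩
    · have h4 : (4 : ℤ) ^ j ≤ N := by
        calc (4 : ℤ) ^ j = 1 * 4 ^ j := by ring
          _ ≤ |t.2| * 4 ^ j := mul_le_mul_of_nonneg_right ht0 (by positivity)
          _ ≤ N := hb
      have h5 : (2 ^ j) ^ 2 ≤ (h ^ 2) ^ 2 := by
        have h6 : ((2 : ℤ) ^ j) ^ 2 ≤ ((h : ℤ) ^ 2) ^ 2 := by
          calc ((2 : ℤ) ^ j) ^ 2 = 4 ^ j := by rw [← pow_mul, mul_comm, pow_mul]; norm_num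
            _ ≤ N := h4
            _ = _ := by rw [hN]; ring
        exact_mod_cast h6
      exact (Nat.pow_le_pow_iff_left (by norm_num)).1 h5
    · unfold Rc
      rw [mem_product, mem_Ioc, mem_Ioc]
      have ha1 := abs_le.1 ha
      have e1 : (((2 ^ (j + 1) * h ^ 3 + 1) * h : ℕ) : ℤ) = 2 ^ (j + 1) * N + h := by
        rw [hN]
        push_cast
        ring
      have hh0' : (0 : ℤ) < h := by exact_mod_cast hh0
      have hb2 : |t.2| < (((h ^ 3 / 4 ^ j + 1) * h : ℕ) : ℤ) := by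
        have h7 : h ^ 3 < (h ^ 3 / 4 ^ j + 1) * 4 ^ j := by
          have := Nat.lt_div_mul_add (a := h ^ 3) (b := 4 ^ j) (by positivity)
          rw [add_mul, one_mul]
          exact this
        have h8 : ((h ^ 3 : ℕ) : ℤ) < (((h ^ 3 / 4 ^ j + 1) * 4 ^ j : ℕ) : ℤ) := by
          exact_mod_cast h7
        have h9 : |t.2| * 4 ^ j < (((h ^ 3 / 4 ^ j + 1) * h : ℕ) : ℤ) * 4 ^ j := by
          calc |t.2| * 4 ^ j ≤ N := hb
            _ = ((h ^ 3 : ℕ) : ℤ) * h := by rw [hN]; push_cast; ring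
            _ < (((h ^ 3 / 4 ^ j + 1) * 4 ^ j : ℕ) : ℤ) * h := mul_lt_mul_of_pos_right h8 hh0'
            _ = _ := by push_cast; ring
        exact lt_of_mul_lt_mul_right h9 (by positivity)
      have hb3 := abs_lt.1 hb2
      refine ⟨⟨?_, ?_⟩, ?_, ?_⟩
      · rw [e1]; linarith [ha1.1]
      · rw [e1]; linarith [ha1.2]
      · exact hb3.1
      · exact hb3.2.le
  -- the least `k` with `|a| ≤ 2 ^ k N`
  have hex : ∃ k : ℕ, |t.1| ≤ 2 ^ k * N := by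
    obtain ⟨k, hk⟩ := pow_unbounded_of_one_lt (|t.1|) (one_lt_two : (1 : ℤ) < 2)
    refine ⟨k, hk.le.trans ?_⟩
    have : (0 : ℤ) < 2 ^ k := by positivity
    nlinarith
  rcases hk : Nat.find hex with _ | j
  · have ha := Nat.find_spec hex
    rw [hk, pow_zero, one_mul] at ha
    apply suff 0
    · rw [zero_add, pow_one]; linarith
    · rw [pow_zero, mul_one]; exact h1.trans ha
  · have ha := Nat.find_spec hex
    rw [hk] at ha
    have hb := Nat.find_min hex (m := j) (by omega)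
    rw [not_le] at hb
    apply suff j ha
    by_contra hcon
    rw [not_le] at hcon
    have p0 : (0 : ℤ) < 2 ^ j * N := by positivity
    have h3 : (2 ^ j * N) ^ 2 < t.1 ^ 2 := by
      rw [← sq_abs t.1]
      exact pow_lt_pow_left₀ hb p0.le (by norm_num)
    have h4 : N ^ 3 < N ^ 3 := by
      calc N ^ 3 = N ^ 2 * N := by ring
        _ < N ^ 2 * (|t.2| * 4 ^ j) := mul_lt_mul_of_pos_left hcon (by positivity)
        _ = (2 ^ j * N) ^ 2 * |t.2| := by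
          have : (4 : ℤ) ^ j = (2 ^ j) ^ 2 := by rw [← pow_mul, mul_comm, pow_mul]; norm_num
          rw [this]
          ring
        _ ≤ t.1 ^ 2 * |t.2| := mul_le_mul_of_nonneg_right h3.le (abs_nonneg _)
        _ ≤ N ^ 3 := h2
    exact lt_irrefl _ h4

/-- **the sum over the region** -/
theorem region {v : ℤ × ℤ → ℝ} (hv : ∀ t, 0 ≤ v t) {C : ℝ} (hC0 : 0 ≤ C) (hC : SqB v 9 C)
    {h : ℕ} (hh : 2 ≤ h) {S : Finset (ℤ × ℤ)}
    (hS : ∀ t ∈ S, t.2 ≠ 0 ∧ |t.2| ≤ |t.1| ∧ t.1 ^ 2 * |t.2| ≤ ((h : ℤ) ^ 4) ^ 3) :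
    ∑ t ∈ S, v t ≤ 96 * C * (h : ℝ) ^ 8 := by
  classical
  have hh1 : 1 ≤ h := by omega
  have hhr : (1 : ℝ) ≤ h := by exact_mod_cast hh1
  have hex : ∀ t : ℤ × ℤ, ∃ j : ℕ, t ∈ S → 2 ^ j ≤ h ^ 2 ∧
      t ∈ Rc h (2 ^ (j + 1) * h ^ 3 + 1) (h ^ 3 / 4 ^ j + 1) := by
    intro t
    by_cases ht : t ∈ S
    · obtain ⟨j, hj⟩ := cover hh (hS t ht).1 (hS t ht).2.1 (hS t ht).2.2
      exact ⟨j, fun _ => hj⟩
    · exact ⟨0, fun h => absurd h ht⟩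
  choose g hg using hex
  set J := Nat.log 2 (h ^ 2) with hJ
  have hmaps : ∀ t ∈ S, g t ∈ range (J + 1) := by
    intro t ht
    rw [mem_range, Nat.lt_succ_iff]
    exact Nat.le_log_of_pow_le (by norm_num) (hg t ht).1
  rw [← sum_fiberwise_of_maps_to hmaps]
  have hJ2 : 2 ^ J ≤ h ^ 2 := Nat.pow_log_le_self 2 (by positivity)
  have key : ∀ j ∈ range (J + 1), ∑ t ∈ S with g t = j, v t ≤
      24 * C * (h : ℝ) ^ 8 * (1 / 2) ^ j + 24 * C * (h : ℝ) ^ 6 * 2 ^ j := by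
    intro j hj
    rw [mem_range, Nat.lt_succ_iff] at hj
    have hj2 : 2 ^ j ≤ h ^ 2 := (Nat.pow_le_pow_right (by norm_num) hj).trans hJ2
    have h1 : ∑ t ∈ S with g t = j, v t ≤
        ∑ t ∈ Rc h (2 ^ (j + 1) * h ^ 3 + 1) (h ^ 3 / 4 ^ j + 1), v t := by
      apply sum_le_sum_of_subset_of_nonneg
      · intro t ht
        rw [mem_filter] at ht
        have h2 := (hg t ht.1).2
        rw [ht.2] at h2
        exact h2
      · intro t _ _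
        exact hv t
    have hp1 : (2 ^ (j + 1) * h ^ 3 + 1) * h ≤ h ^ 9 := by
      have a1 : 2 ^ (j + 1) * h ^ 3 + 1 ≤ h ^ 8 := by
        have b1 : 2 ^ (j + 1) * h ^ 3 ≤ 2 * h ^ 5 := by
          calc 2 ^ (j + 1) * h ^ 3 = 2 * (2 ^ j * h ^ 3) := by ring
            _ ≤ 2 * (h ^ 2 * h ^ 3) := by gcongr
            _ = 2 * h ^ 5 := by ring
        have b2 : 2 * h ^ 5 ≤ h ^ 6 := by
          calc 2 * h ^ 5 ≤ h * h ^ 5 := Nat.mul_le_mul_right _ hh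
            _ = h ^ 6 := by ring
        have b3 : h ^ 6 + 1 ≤ h ^ 8 := by
          have c1 : 1 ≤ h ^ 6 := Nat.one_le_pow _ _ hh1
          have c2 : h ^ 8 = h ^ 6 * (h * h) := by ring
          have c3 : 2 ≤ h * h := by nlinarith
          rw [c2]
          nlinarith
        omega
      calc (2 ^ (j + 1) * h ^ 3 + 1) * h ≤ h ^ 8 * h := Nat.mul_le_mul_right h a1
        _ = h ^ 9 := by ring
    have hq1 : (h ^ 3 / 4 ^ j + 1) * h ≤ h ^ 9 := by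
      have a1 : h ^ 3 / 4 ^ j + 1 ≤ h ^ 8 := by
        have b1 : h ^ 3 / 4 ^ j ≤ h ^ 3 := Nat.div_le_self _ _
        have c1 : 1 ≤ h ^ 3 := Nat.one_le_pow _ _ hh1
        have c2 : h ^ 8 = h ^ 3 * h ^ 5 := by ring
        have c3 : 2 ≤ h ^ 5 := hh.trans (Nat.le_self_pow (by norm_num) h)
        rw [c2]
        nlinarith
      calc (h ^ 3 / 4 ^ j + 1) * h ≤ h ^ 8 * h := Nat.mul_le_mul_right h a1
        _ = h ^ 9 := by ring
    refine h1.trans ((rect hv hC hh1 hp1 hq1).trans ?_)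
    have hx : (0 : ℝ) < 2 ^ j := by positivity
    have hx1 : (1 : ℝ) ≤ 2 ^ j := one_le_pow₀ (by norm_num)
    have hp2 : ((2 ^ (j + 1) * h ^ 3 + 1 : ℕ) : ℝ) ≤ 3 * 2 ^ j * (h : ℝ) ^ 3 := by
      push_cast
      have : (1 : ℝ) ≤ 2 ^ j * (h : ℝ) ^ 3 := one_le_mul_of_one_le_of_one_le hx1
        (one_le_pow₀ hhr)
      rw [pow_succ]
      linarith
    have hq2 : ((h ^ 3 / 4 ^ j + 1 : ℕ) : ℝ) ≤ (h : ℝ) ^ 3 * ((1 / 2) ^ j * (1 / 2) ^ j) + 1 := by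
      push_cast
      have : ((h ^ 3 / 4 ^ j : ℕ) : ℝ) ≤ ((h ^ 3 : ℕ) : ℝ) / ((4 ^ j : ℕ) : ℝ) := Nat.cast_div_le
      have e : ((h ^ 3 : ℕ) : ℝ) / ((4 ^ j : ℕ) : ℝ) = (h : ℝ) ^ 3 * ((1 / 2) ^ j * (1 / 2) ^ j) := by
        push_cast
        rw [← mul_pow, div_eq_mul_inv, ← inv_pow]
        norm_num
      rw [e] at this
      linarith
    have hc0 : 0 ≤ C * (h : ℝ) ^ 2 := by positivity
    calc 4 * ((2 ^ (j + 1) * h ^ 3 + 1 : ℕ) : ℝ) * ((h ^ 3 / 4 ^ j + 1 : ℕ) : ℝ) *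
          (C * (h : ℝ) ^ 2)
        ≤ 4 * (3 * 2 ^ j * (h : ℝ) ^ 3) * ((h : ℝ) ^ 3 * ((1 / 2) ^ j * (1 / 2) ^ j) + 1) *
          (C * (h : ℝ) ^ 2) := by
          apply mul_le_mul_of_nonneg_right _ hc0
          apply mul_le_mul _ hq2 (by positivity) (by positivity)
          linarith
      _ = 12 * C * (h : ℝ) ^ 8 * (1 / 2) ^ j * (2 ^ j * (1 / 2) ^ j) +
          12 * C * (h : ℝ) ^ 5 * 2 ^ j := by ring
      _ = 12 * C * (h : ℝ) ^ 8 * (1 / 2) ^ j + 12 * C * (h : ℝ) ^ 5 * 2 ^ j := by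
          rw [← mul_pow]
          norm_num
      _ ≤ _ := by
          have a1 : C * (h : ℝ) ^ 8 * (1 / 2) ^ j ≥ 0 := by positivity
          have a2 : C * (h : ℝ) ^ 5 * 2 ^ j ≤ C * (h : ℝ) ^ 6 * 2 ^ j := by
            have : (h : ℝ) ^ 5 ≤ (h : ℝ) ^ 6 := pow_le_pow_right₀ hhr (by norm_num)
            gcongr
          have a3 : C * (h : ℝ) ^ 5 * 2 ^ j ≥ 0 := by positivity
          nlinarith
  refine (sum_le_sum key).trans ?_
  rw [sum_add_distrib, ← mul_sum, ← mul_sum]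
  have hg1 : ∑ j ∈ range (J + 1), (1 / 2 : ℝ) ^ j ≤ 2 := by
    rw [geom_sum_eq (by norm_num)]
    have : (0 : ℝ) < (1 / 2) ^ (J + 1) := by positivity
    have e : (((1 : ℝ) / 2) ^ (J + 1) - 1) / (1 / 2 - 1) = 2 * (1 - (1 / 2) ^ (J + 1)) := by ring
    rw [e]
    linarith
  have hg2 : ∑ j ∈ range (J + 1), (2 : ℝ) ^ j ≤ 2 * (h : ℝ) ^ 2 := by
    rw [geom_sum_eq (by norm_num)]
    have h3 : (2 : ℝ) ^ J ≤ (h : ℝ) ^ 2 := by exact_mod_cast hJ2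
    rw [pow_succ]
    have e : ((2 : ℝ) ^ J * 2 - 1) / (2 - 1) = 2 * 2 ^ J - 1 := by ring
    rw [e]
    linarith
  have c0 : 0 ≤ 24 * C * (h : ℝ) ^ 8 := by positivity
  have c1 : 0 ≤ 24 * C * (h : ℝ) ^ 6 := by positivity
  have d1 := mul_le_mul_of_nonneg_left hg1 c0
  have d2 := mul_le_mul_of_nonneg_left hg2 c1
  calc _ ≤ 24 * C * (h : ℝ) ^ 8 * 2 + 24 * C * (h : ℝ) ^ 6 * (2 * (h : ℝ) ^ 2) := add_le_add d1 d2
    _ = 96 * C * (h : ℝ) ^ 8 := by ring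

end Run7.h318.DI
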