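import Mathlib

/-!
# The minimal discriminant of `y ^ 2 = x ^ 3 + A x + B`
-/

set_option autoImplicit false
set_option linter.unusedSectionVars false

namespace Run7.h318.DI

open WeierstrassCurve

/-- the absolute value of the minimal discriminant: the least `|Δ(W')|` for the Weierstrass
equations `W'` with integer coefficients which are isomorphic to `W` over `ℚ` -/
noncomputable def minDisc (W : WeierstrassCurve ℚ) : ℕ :=
  sInf {n : ℕ | ∃ (W' : WeierstrassCurve ℤ) (C : VariableChange ℚ),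
    C • W = W'.map (Int.castRingHom ℚ) ∧ n = W'.Δ.natAbs}

/-- the curve -/
def Cu (A B : ℤ) : WeierstrassCurve ℚ := ⟨0, 0, 0, (A : ℚ), (B : ℚ)⟩

/-- the curve over `ℤ` -/
def CuZ (A B : ℤ) : WeierstrassCurve ℤ := ⟨0, 0, 0, A, B⟩

lemma cu_map (A B : ℤ) : (CuZ A B).map (Int.castRingHom ℚ) = Cu A B := by
  unfold CuZ Cu WeierstrassCurve.map
  simp

lemma disc_Z (A B : ℤ) : (CuZ A B).Δ = -16 * (4 * A ^ 3 + 27 * B ^ 2) := by
  unfold CuZ WeierstrassCurve.Δ WeierstrassCurve.b₂ WeierstrassCurve.b₄ WeierstrassCurve.b₆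
    WeierstrassCurve.b₈
  ring

lemma c4_Z (A B : ℤ) : (CuZ A B).c₄ = -48 * A := by
  unfold CuZ WeierstrassCurve.c₄ WeierstrassCurve.b₂ WeierstrassCurve.b₄
  ring

lemma c6_Z (A B : ℤ) : (CuZ A B).c₆ = -864 * B := by
  unfold CuZ WeierstrassCurve.c₆ WeierstrassCurve.b₂ WeierstrassCurve.b₄ WeierstrassCurve.b₆
  ring

lemma minDisc_le (A B : ℤ) : minDisc (Cu A B) ≤ (16 * (4 * A ^ 3 + 27 * B ^ 2)).natAbs := by
  apply Nat.sInf_le
  refine ⟨CuZ A B, 1, ?_, ?_⟩
  · rw [one_smul, cu_map]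
  · rw [disc_Z, neg_mul, Int.natAbs_neg]

/-- the numerator of the scaling -/
lemma num_dvd {A B : ℤ} (hmin : ∀ p : ℕ, p.Prime → ¬ ((p : ℤ) ^ 4 ∣ A ∧ (p : ℤ) ^ 6 ∣ B))
    {m : ℕ} (h4 : (m : ℤ) ^ 4 ∣ 48 * A) (h6 : (m : ℤ) ^ 6 ∣ 864 * B) : m ∣ 6 := by
  -- divisibility after removing a coprime factor
  have cop : ∀ {p : ℕ} {n c : ℕ} {x : ℤ}, p.Prime → Nat.Coprime p c → (p : ℤ) ^ n ∣ (c : ℤ) * x →
      (p : ℤ) ^ n ∣ x := by
    intro p n c x hp hc hd
    have : IsCoprime ((p : ℤ) ^ n) (c : ℤ) := by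
      apply IsCoprime.pow_left
      exact Nat.isCoprime_iff_coprime.2 hc
    exact this.dvd_of_dvd_mul_left hd
  have hbig : ∀ p : ℕ, p.Prime → p ∣ m → p = 2 ∨ p = 3 := by
    intro p hp hpm
    by_contra hcon
    rw [not_or] at hcon
    have c2 : Nat.Coprime p 2 := (Nat.coprime_primes hp Nat.prime_two).2 hcon.1
    have c3 : Nat.Coprime p 3 := (Nat.coprime_primes hp Nat.prime_three).2 hcon.2
    have hpm' : (p : ℤ) ∣ (m : ℤ) := by exact_mod_cast hpm
    apply hmin p hp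
    constructor
    · have h1 : (p : ℤ) ^ 4 ∣ ((48 : ℕ) : ℤ) * A := (pow_dvd_pow_of_dvd hpm' 4).trans h4
      refine cop hp ?_ h1
      have : (48 : ℕ) = 2 ^ 4 * 3 := by norm_num
      rw [this]
      exact Nat.Coprime.mul_right (c2.pow_right 4) c3
    · have h1 : (p : ℤ) ^ 6 ∣ ((864 : ℕ) : ℤ) * B := (pow_dvd_pow_of_dvd hpm' 6).trans h6
      refine cop hp ?_ h1
      have : (864 : ℕ) = 2 ^ 5 * 3 ^ 3 := by norm_num
      rw [this]
      exact Nat.Coprime.mul_right (c2.pow_right 5) (c3.pow_right 3)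
  have hm0 : m ≠ 0 := by
    rintro rfl
    apply hmin 2 Nat.prime_two
    rw [Nat.cast_zero, zero_pow (by norm_num), zero_dvd_iff] at h4 h6
    have hA : A = 0 := by omega
    have hB : B = 0 := by omega
    rw [hA, hB]
    exact ⟨dvd_zero _, dvd_zero _⟩
  have hsq : Squarefree m := by
    rw [Nat.squarefree_iff_prime_squarefree]
    intro p hp hpp
    have hpm : p ∣ m := (dvd_mul_right p p).trans hpp
    have hpp' : (p : ℤ) ^ 2 ∣ (m : ℤ) := by
      rw [sq]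
      exact_mod_cast hpp
    have k4 : (p : ℤ) ^ 8 ∣ 48 * A := by
      have := (pow_dvd_pow_of_dvd hpp' 4).trans h4
      rwa [← pow_mul] at this
    have k6 : (p : ℤ) ^ 12 ∣ 864 * B := by
      have := (pow_dvd_pow_of_dvd hpp' 6).trans h6
      rwa [← pow_mul] at this
    rcases hbig p hp hpm with rfl | rfl
    · apply hmin 2 Nat.prime_two
      constructor
      · have h1 : ((2 : ℕ) : ℤ) ^ 4 ∣ ((3 : ℕ) : ℤ) * A := by
          have h2 : (16 : ℤ) * ((2 : ℕ) : ℤ) ^ 4 ∣ 16 * (((3 : ℕ) : ℤ) * A) := by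
            push_cast at k4 ⊢
            have e : (16 : ℤ) * (3 * A) = 48 * A := by ring
            rw [e]
            exact k4
          exact Int.dvd_of_mul_dvd_mul_left (by norm_num) h2
        exact cop Nat.prime_two (by norm_num) h1
      · have h1 : ((2 : ℕ) : ℤ) ^ 6 ∣ ((27 : ℕ) : ℤ) * B := by
          have h2 : (32 : ℤ) * ((2 : ℕ) : ℤ) ^ 6 ∣ 32 * (((27 : ℕ) : ℤ) * B) := by
            push_cast at k6 ⊢
            have e : (32 : ℤ) * (27 * B) = 864 * B := by ring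
            rw [e]
            exact Dvd.dvd.trans (by norm_num) k6
          exact Int.dvd_of_mul_dvd_mul_left (by norm_num) h2
        exact cop Nat.prime_two (by norm_num) h1
    · apply hmin 3 Nat.prime_three
      constructor
      · have h1 : ((3 : ℕ) : ℤ) ^ 4 ∣ ((16 : ℕ) : ℤ) * A := by
          have h2 : (3 : ℤ) * ((3 : ℕ) : ℤ) ^ 4 ∣ 3 * (((16 : ℕ) : ℤ) * A) := by
            push_cast at k4 ⊢
            have e : (3 : ℤ) * (16 * A) = 48 * A := by ring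
            rw [e]
            exact Dvd.dvd.trans (by norm_num) k4
          exact Int.dvd_of_mul_dvd_mul_left (by norm_num) h2
        exact cop Nat.prime_three (by norm_num) h1
      · have h1 : ((3 : ℕ) : ℤ) ^ 6 ∣ ((32 : ℕ) : ℤ) * B := by
          have h2 : (27 : ℤ) * ((3 : ℕ) : ℤ) ^ 6 ∣ 27 * (((32 : ℕ) : ℤ) * B) := by
            push_cast at k6 ⊢
            have e : (27 : ℤ) * (32 * B) = 864 * B := by ring
            rw [e]
            exact Dvd.dvd.trans (by norm_num) k6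
          exact Int.dvd_of_mul_dvd_mul_left (by norm_num) h2
        exact cop Nat.prime_three (by norm_num) h1
  have hprod := Nat.prod_primeFactors_of_squarefree hsq
  have hsub : m.primeFactors ⊆ {2, 3} := by
    intro p hp
    rw [Finset.mem_insert, Finset.mem_singleton]
    exact hbig p (Nat.prime_of_mem_primeFactors hp) (Nat.dvd_of_mem_primeFactors hp)
  have h := Finset.prod_dvd_prod_of_subset m.primeFactors {2, 3} (fun p => p) hsub
  rw [hprod] at h
  have e : ∏ p ∈ ({2, 3} : Finset ℕ), p = 6 := by decide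
  rwa [e] at h

/-- **the minimal discriminant is the discriminant up to a constant** -/
theorem disc_le {A B : ℤ}
    (hmin : ∀ p : ℕ, p.Prime → ¬ ((p : ℤ) ^ 4 ∣ A ∧ (p : ℤ) ^ 6 ∣ B)) :
    (16 * (4 * A ^ 3 + 27 * B ^ 2)).natAbs ≤ 6 ^ 12 * minDisc (Cu A B) := by
  have hne : {n : ℕ | ∃ (W' : WeierstrassCurve ℤ) (C : VariableChange ℚ),
      C • Cu A B = W'.map (Int.castRingHom ℚ) ∧ n = W'.Δ.natAbs}.Nonempty :=
    ⟨_, CuZ A B, 1, by rw [one_smul, cu_map], rfl⟩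
  obtain ⟨W', C, hC, hn⟩ := Nat.sInf_mem hne
  have hn' : minDisc (Cu A B) = W'.Δ.natAbs := hn
  rw [hn']
  set u : ℚ := (C.u : ℚ) with hu
  have hu0 : u ≠ 0 := C.u.ne_zero
  have hΔ : -16 * (4 * (A : ℚ) ^ 3 + 27 * (B : ℚ) ^ 2) = u ^ 12 * (W'.Δ : ℚ) := by
    have h1 : (C • Cu A B).Δ = (W'.map (Int.castRingHom ℚ)).Δ := by rw [hC]
    rw [variableChange_Δ, map_Δ, ← cu_map, map_Δ, disc_Z, eq_intCast, eq_intCast] at h1
    rw [← h1, Units.val_inv_eq_inv_val, ← hu]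
    push_cast
    field_simp
  have h4 : -48 * (A : ℚ) = u ^ 4 * (W'.c₄ : ℚ) := by
    have h1 : (C • Cu A B).c₄ = (W'.map (Int.castRingHom ℚ)).c₄ := by rw [hC]
    rw [variableChange_c₄, map_c₄, ← cu_map, map_c₄, c4_Z, eq_intCast, eq_intCast] at h1
    rw [← h1, Units.val_inv_eq_inv_val, ← hu]
    push_cast
    field_simp
  have h6 : -864 * (B : ℚ) = u ^ 6 * (W'.c₆ : ℚ) := by
    have h1 : (C • Cu A B).c₆ = (W'.map (Int.castRingHom ℚ)).c₆ := by rw [hC]
    rw [variableChange_c₆, map_c₆, ← cu_map, map_c₆, c6_Z, eq_intCast, eq_intCast] at h1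
    rw [← h1, Units.val_inv_eq_inv_val, ← hu]
    push_cast
    field_simp
  -- numerator and denominator
  have hcop : IsCoprime u.num (u.den : ℤ) := Rat.isCoprime_num_den u
  have hden : (u.den : ℚ) ≠ 0 := by exact_mod_cast u.den_nz
  have hud : u * (u.den : ℚ) = (u.num : ℚ) := Rat.mul_den_eq_num u
  have dv : ∀ {c x y : ℤ} {n : ℕ}, (c : ℚ) * (x : ℚ) = u ^ n * (y : ℚ) → u.num ^ n ∣ c * x := by
    intro c x y n h
    have h1 : ((c * x * (u.den : ℤ) ^ n : ℤ) : ℚ) = ((u.num ^ n * y : ℤ) : ℚ) := by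
      push_cast
      rw [← hud, h]
      ring
    have h2 : c * x * (u.den : ℤ) ^ n = u.num ^ n * y := by exact_mod_cast h1
    have h3 : u.num ^ n ∣ c * x * (u.den : ℤ) ^ n := ⟨y, h2⟩
    exact (IsCoprime.pow hcop).dvd_of_dvd_mul_right h3
  have k4 : u.num ^ 4 ∣ -48 * A := dv (y := W'.c₄) (by push_cast; exact h4)
  have k6 : u.num ^ 6 ∣ -864 * B := dv (y := W'.c₆) (by push_cast; exact h6)
  have e4 : ((u.num.natAbs : ℕ) : ℤ) ^ 4 ∣ 48 * A := by
    rw [Int.natCast_natAbs, Even.pow_abs (by decide)]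
    rw [neg_mul, dvd_neg] at k4
    exact k4
  have e6 : ((u.num.natAbs : ℕ) : ℤ) ^ 6 ∣ 864 * B := by
    rw [Int.natCast_natAbs, Even.pow_abs (by decide)]
    rw [neg_mul, dvd_neg] at k6
    exact k6
  have h6' := Nat.le_of_dvd (by norm_num) (num_dvd hmin e4 e6)
  have huabs : |u| ≤ 6 := by
    have a1 : |u| * (u.den : ℚ) = ((u.num.natAbs : ℕ) : ℚ) := by
      rw [Nat.cast_natAbs, Int.cast_abs, ← hud, abs_mul, abs_of_nonneg (by positivity : (0 : ℚ) ≤ u.den)]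
    have a2 : (1 : ℚ) ≤ u.den := by exact_mod_cast u.den_pos
    have a3 : ((u.num.natAbs : ℕ) : ℚ) ≤ 6 := by exact_mod_cast h6'
    nlinarith [abs_nonneg u]
  have hfin : (((16 * (4 * A ^ 3 + 27 * B ^ 2)).natAbs : ℕ) : ℚ) ≤
      ((6 ^ 12 * W'.Δ.natAbs : ℕ) : ℚ) := by
    rw [Nat.cast_natAbs, Int.cast_abs, Nat.cast_mul, Nat.cast_natAbs, Int.cast_abs]
    have e : ((16 * (4 * A ^ 3 + 27 * B ^ 2) : ℤ) : ℚ) = -(u ^ 12 * (W'.Δ : ℚ)) := by
      rw [← hΔ]
      push_cast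
      ring
    rw [e, abs_neg, abs_mul, abs_pow]
    apply mul_le_mul_of_nonneg_right _ (abs_nonneg _)
    push_cast
    exact pow_le_pow_left₀ (abs_nonneg u) huabs 12
  exact_mod_cast hfin

end Run7.h318.DI
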