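import Mathlib
import Pool.Agent.Run7.h69.UA9
import Pool.Agent.Run7.h318.DI.A
import Pool.Agent.Run7.h318.DI.B

/-!
# The curves with full rational 2-torsion, ordered by the minimal discriminant
-/

set_option autoImplicit false
set_option linter.unusedSectionVars false

namespace Run7.h318.DI

open Finset Filter
open Pool.Agent.W307.RT (Cv Sh HasT)
open Run7.h69.UH (Rel rel_of rel_inj rel_rank)
open Run7.h69

/-- the smallest of the three differences is the second parameter -/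
lemma rel_min {c : ℤ × ℤ} (h : ∃ t, Rel c t) :
    ∃ t, Rel c t ∧ |t.2| ≤ |t.1| ∧ |t.2| ≤ |t.1 - t.2| := by
  obtain ⟨t, E1, E2, ht, hc, h1, h2, h3⟩ := h
  rw [ht] at h1 h2 h3
  simp only at h1 h2 h3
  have mk : ∀ x y : ℤ, c = (-(x ^ 2 + x * y + y ^ 2), x * y * (x + y)) → y - x ≠ 0 →
      -x - y - x ≠ 0 → y - x ≠ -x - y - x → Rel c (y - x, -x - y - x) :=
    fun x y hc h1 h2 h3 => ⟨x, y, rfl, hc, h1, h2, h3⟩
  rcases le_total (|-E1 - E2 - E1|) (|E2 - E1|) with ha | ha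
  · rcases le_total (|-E1 - E2 - E1|) (|E2 - E1 - (-E1 - E2 - E1)|) with hb | hb
    · exact ⟨_, mk E1 E2 hc h1 h2 h3, ha, hb⟩
    · -- the difference of the second and the third root is the smallest one
      refine ⟨_, mk E2 E1 ?_ ?_ ?_ ?_, ?_, ?_⟩
      · rw [hc]
        ext <;> ring
      · intro h; apply h1; linarith
      · intro h; apply h3; linarith
      · intro h; apply h2; linarith
      · have e1 : -E2 - E1 - E2 = -(E2 - E1 - (-E1 - E2 - E1)) := by ring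
        have e2 : E1 - E2 = -(E2 - E1) := by ring
        simp only
        rw [e1, e2, abs_neg, abs_neg]
        exact hb.trans ha
      · have e1 : -E2 - E1 - E2 = -(E2 - E1 - (-E1 - E2 - E1)) := by ring
        have e2 : E1 - E2 - (-E2 - E1 - E2) = -(-E1 - E2 - E1) := by ring
        simp only
        rw [e2, e1, abs_neg, abs_neg]
        exact hb
  · rcases le_total (|E2 - E1|) (|E2 - E1 - (-E1 - E2 - E1)|) with hb | hb
    · -- the difference of the first and the second root is the smallest one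
      refine ⟨_, mk E1 (-E1 - E2) ?_ ?_ ?_ ?_, ?_, ?_⟩
      · rw [hc]
        ext <;> ring
      · intro h; apply h2; linarith
      · intro h; apply h1; linarith
      · intro h; apply h3; linarith
      · have e1 : -E1 - (-E1 - E2) - E1 = E2 - E1 := by ring
        simp only
        rw [e1]
        exact ha
      · have e1 : -E1 - (-E1 - E2) - E1 = E2 - E1 := by ring
        have e2 : -E1 - E2 - E1 - (E2 - E1) = -(E2 - E1 - (-E1 - E2 - E1)) := by ring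
        simp only
        rw [e1, e2, abs_neg]
        exact hb
    · refine ⟨_, mk E2 E1 ?_ ?_ ?_ ?_, ?_, ?_⟩
      · rw [hc]
        ext <;> ring
      · intro h; apply h1; linarith
      · intro h; apply h3; linarith
      · intro h; apply h2; linarith
      · have e1 : -E2 - E1 - E2 = -(E2 - E1 - (-E1 - E2 - E1)) := by ring
        have e2 : E1 - E2 = -(E2 - E1) := by ring
        simp only
        rw [e1, e2, abs_neg, abs_neg]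
        exact hb
      · have e1 : -E2 - E1 - E2 = -(E2 - E1 - (-E1 - E2 - E1)) := by ring
        have e2 : E1 - E2 - (-E2 - E1 - E2) = -(-E1 - E2 - E1) := by ring
        simp only
        rw [e2, e1, abs_neg, abs_neg]
        exact hb.trans ha

lemma rel_disc {c t : ℤ × ℤ} (h : Rel c t) :
    4 * c.1 ^ 3 + 27 * c.2 ^ 2 = -(t.1 * t.2 * (t.1 - t.2)) ^ 2 := by
  obtain ⟨E1, E2, ht, hc, _⟩ := h
  rw [ht, hc]
  simp only
  ring

/-- the family -/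
def Fm (X : ℕ) : Set (ℤ × ℤ) := {c | 4 * c.1 ^ 3 + 27 * c.2 ^ 2 ≠ 0 ∧
  (∀ p : ℕ, p.Prime → ¬ ((p : ℤ) ^ 4 ∣ c.1 ∧ (p : ℤ) ^ 6 ∣ c.2)) ∧ HasT 2 (Sh c.1 c.2) ∧
  minDisc (Cu c.1 c.2) ≤ X}

open Classical in
/-- the parameters of a curve -/
noncomputable def G (c : ℤ × ℤ) : ℤ × ℤ :=
  if h : ∃ t, Rel c t ∧ |t.2| ≤ |t.1| ∧ |t.2| ≤ |t.1 - t.2| then h.choose else (0, 0)

lemma G_spec {X : ℕ} {c : ℤ × ℤ} (hc : c ∈ Fm X) :
    Rel c (G c) ∧ |(G c).2| ≤ |(G c).1| ∧ |(G c).2| ≤ |(G c).1 - (G c).2| := by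
  classical
  have h := rel_min (rel_of (A := c.1) (B := c.2) hc.1 hc.2.2.1)
  unfold G
  rw [dif_pos h]
  exact h.choose_spec

lemma G_inj (X : ℕ) : Set.InjOn G (Fm X) := by
  intro c hc c' hc' h
  have r := (G_spec hc).1
  have r' := (G_spec hc').1
  rw [← h] at r'
  exact rel_inj r r'

lemma disc_bound {X : ℕ} {c t : ℤ × ℤ} (hc : c ∈ Fm X) (h : Rel c t) :
    16 * (t.1 * t.2 * (t.1 - t.2)) ^ 2 ≤ 6 ^ 12 * (X : ℤ) := by
  have h1 := disc_le hc.2.1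
  have h2 : (16 * (4 * c.1 ^ 3 + 27 * c.2 ^ 2)).natAbs ≤ 6 ^ 12 * X :=
    h1.trans (Nat.mul_le_mul_left _ hc.2.2.2)
  rw [rel_disc h, mul_neg, Int.natAbs_neg] at h2
  have h3 : (((16 * (t.1 * t.2 * (t.1 - t.2)) ^ 2).natAbs : ℕ) : ℤ) ≤ ((6 ^ 12 * X : ℕ) : ℤ) := by
    exact_mod_cast h2
  rw [Int.natCast_natAbs, abs_of_nonneg (by positivity)] at h3
  push_cast at h3
  exact h3

lemma G_size {X : ℕ} {c : ℤ × ℤ} (hc : c ∈ Fm X) :
    (G c).2 ≠ 0 ∧ ((G c).1 ^ 2 * |(G c).2|) ^ 2 ≤ 6 ^ 12 * (X : ℤ) := by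
  obtain ⟨h1, h2, h3⟩ := G_spec hc
  have h4 := disc_bound hc h1
  obtain ⟨_, _, _, _, n1, n2, n3⟩ := h1
  refine ⟨n2, ?_⟩
  set a := (G c).1
  set b := (G c).2
  have h5 : |a| ≤ 2 * |a - b| := by
    have : |a| ≤ |a - b| + |b| := by
      calc |a| = |(a - b) + b| := by ring_nf
        _ ≤ _ := abs_add_le _ _
    linarith
  have h6 : a ^ 2 * |b| ≤ 2 * |a * b * (a - b)| := by
    rw [abs_mul, abs_mul, ← sq_abs a]
    have := mul_le_mul_of_nonneg_left h5 (mul_nonneg (abs_nonneg a) (abs_nonneg b))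
    nlinarith
  calc (a ^ 2 * |b|) ^ 2 ≤ (2 * |a * b * (a - b)|) ^ 2 :=
        pow_le_pow_left₀ (by positivity) h6 2
    _ = 4 * (a * b * (a - b)) ^ 2 := by rw [mul_pow, sq_abs]; norm_num
    _ ≤ 16 * (a * b * (a - b)) ^ 2 := by nlinarith [sq_nonneg (a * b * (a - b))]
    _ ≤ _ := h4

lemma G_box {X : ℕ} {c : ℤ × ℤ} (hc : c ∈ Fm X) :
    |(G c).1| ≤ 6 ^ 12 * (X : ℤ) ∧ |(G c).2| ≤ 6 ^ 12 * (X : ℤ) := by
  obtain ⟨h1, h2⟩ := G_size hc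
  obtain ⟨_, h3, _⟩ := G_spec hc
  set a := (G c).1
  set b := (G c).2
  have hb : 1 ≤ |b| := Int.one_le_abs h1
  have ha : 1 ≤ |a| := hb.trans h3
  have h4 : |a| ≤ (a ^ 2 * |b|) ^ 2 := by
    have e : (a ^ 2 * |b|) ^ 2 = |a| * (|a| ^ 3 * |b| ^ 2) := by
      rw [← sq_abs a]; ring
    rw [e]
    have : 1 ≤ |a| ^ 3 * |b| ^ 2 := one_le_mul_of_one_le_of_one_le (one_le_pow₀ ha) (one_le_pow₀ hb)
    nlinarith
  exact ⟨h4.trans h2, h3.trans (h4.trans h2)⟩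

lemma Fm_finite (X : ℕ) : (Fm X).Finite := by
  apply Set.Finite.of_finite_image _ (G_inj X)
  apply Set.Finite.subset
    ((Icc (-(6 ^ 12 * (X : ℤ))) (6 ^ 12 * (X : ℤ)) ×ˢ Icc (-(6 ^ 12 * (X : ℤ))) (6 ^ 12 * (X : ℤ))).finite_toSet)
  rintro t ⟨c, hc, rfl⟩
  obtain ⟨h1, h2⟩ := G_box hc
  rw [mem_coe, mem_product, mem_Icc, mem_Icc]
  exact ⟨abs_le.1 h1, abs_le.1 h2⟩

/-- the family as a finite set -/
noncomputable def FS (X : ℕ) : Finset (ℤ × ℤ) := (Fm_finite X).toFinset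

lemma mem_FS {X : ℕ} {c : ℤ × ℤ} : c ∈ FS X ↔ c ∈ Fm X := by
  unfold FS
  rw [Set.Finite.mem_toFinset]

/-- **upper bound** -/
lemma upper {R : ℤ × ℤ → ℝ} (hR : ∀ t, 0 ≤ R t) {C : ℝ} (hC0 : 0 ≤ C)
    (hC : ∀ (x : ℤ × ℤ) (X : ℕ), 1 ≤ X → x.1.natAbs ≤ X ^ 9 → x.2.natAbs ≤ X ^ 9 →
      ∑ t ∈ UF.SS x X, R t ≤ C * (X : ℝ) ^ 2)
    {w : ℤ × ℤ → ℝ} (hw : ∀ c t, UH.Rel c t → w c ≤ R t)
    {X h : ℕ} (hh : 2 ≤ h) (hX : 6 ^ 12 * X ≤ h ^ 24) :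
    ∑ c ∈ FS X, w c ≤ 96 * C * (h : ℝ) ^ 8 := by
  classical
  set v : ℤ × ℤ → ℝ := fun t => if UF.FF t ≠ 0 then R t else 0 with hv
  have hv0 : ∀ t, 0 ≤ v t := by
    intro t
    rw [hv]
    simp only
    split_ifs
    · exact hR t
    · exact le_refl _
  have hsq : SqB v 9 C := by
    intro x X' hX' h1 h2
    have h3 := hC x X' hX' h1 h2
    unfold UF.SS at h3
    rw [sum_filter] at h3
    exact h3
  have hinj : Set.InjOn G (FS X : Set (ℤ × ℤ)) := by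
    intro c hc c' hc' e
    exact G_inj X (mem_FS.1 (mem_coe.1 hc)) (mem_FS.1 (mem_coe.1 hc')) e
  have h1 : ∑ c ∈ FS X, w c ≤ ∑ t ∈ (FS X).image G, v t := by
    rw [sum_image hinj]
    apply sum_le_sum
    intro c hc
    have hr := (G_spec (mem_FS.1 hc)).1
    have hne : UF.FF (G c) ≠ 0 := by
      obtain ⟨_, _, _, _, n1, n2, n3⟩ := hr
      unfold UF.FF
      exact mul_ne_zero (mul_ne_zero n1 n2) (sub_ne_zero.2 n3)
    rw [hv]
    simp only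
    rw [if_pos hne]
    exact hw c _ hr
  refine h1.trans (region hv0 hC0 hsq hh ?_)
  intro t ht
  obtain ⟨c, hc, rfl⟩ := mem_image.1 ht
  have hc' := mem_FS.1 hc
  obtain ⟨g1, g2⟩ := G_size hc'
  refine ⟨g1, (G_spec hc').2.1, ?_⟩
  have hX' : 6 ^ 12 * (X : ℤ) ≤ (h : ℤ) ^ 24 := by exact_mod_cast hX
  have e : (h : ℤ) ^ 24 = (((h : ℤ) ^ 4) ^ 3) ^ 2 := by ring
  rw [e] at hX'
  have h5 := g2.trans hX'
  exact (pow_le_pow_iff_left₀ (by positivity) (by positivity) (by norm_num)).1 h5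

/-- **lower bound** -/
lemma lower {X T : ℕ} (hT : 5 ≤ T) (hX : 3456 * T ^ 6 ≤ X) :
    (T : ℝ) ^ 2 ≤ 24 * ((FS X).card : ℝ) := by
  classical
  have h1 := UH.low T (108 * T ^ 6) hT (le_refl _)
  have hsub : Cv 2 (108 * T ^ 6) ⊆ FS X := by
    intro c hc
    unfold Cv at hc
    rw [mem_filter] at hc
    obtain ⟨-, hD, hA, hB, hmin, hT2⟩ := hc
    rw [mem_FS]
    refine ⟨hD, hmin, hT2, (minDisc_le c.1 c.2).trans ?_⟩
    refine le_trans ?_ hX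
    have h2 : (((16 * (4 * c.1 ^ 3 + 27 * c.2 ^ 2)).natAbs : ℕ) : ℤ) ≤ ((3456 * T ^ 6 : ℕ) : ℤ) := by
      rw [Int.natCast_natAbs, abs_mul]
      have h3 : |4 * c.1 ^ 3 + 27 * c.2 ^ 2| ≤ 4 * |c.1| ^ 3 + 27 * c.2 ^ 2 := by
        refine (abs_add_le _ _).trans ?_
        rw [abs_mul, abs_mul, abs_pow, abs_of_nonneg (sq_nonneg c.2)]
        norm_num
      push_cast at hA hB ⊢
      have h16 : |(16 : ℤ)| = 16 := by norm_num
      rw [h16]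
      linarith
    exact_mod_cast h2
  have h4 : ((Cv 2 (108 * T ^ 6)).card : ℝ) ≤ ((FS X).card : ℝ) := by
    exact_mod_cast card_le_card hsub
  linarith

/-- the scale -/
lemma scale (X : ℕ) : ∃ h : ℕ, 2 ≤ h ∧ 6 ^ 12 * X ≤ h ^ 24 ∧
    (8 ≤ h → (h - 1) ^ 24 < 6 ^ 12 * X ∧ (h : ℝ) ^ 8 ≤ 4608 ^ 2 * 24 * ((FS X).card : ℝ)) := by
  classical
  have hex : ∃ h : ℕ, 2 ≤ h ∧ 6 ^ 12 * X ≤ h ^ 24 :=
    ⟨6 ^ 12 * X + 2, by omega, le_trans (by omega) (Nat.le_self_pow (by norm_num) _)⟩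
  refine ⟨Nat.find hex, (Nat.find_spec hex).1, (Nat.find_spec hex).2, fun h8 => ?_⟩
  set h := Nat.find hex with hh
  have hmin := Nat.find_min hex (m := h - 1) (by omega)
  have hlt : (h - 1) ^ 24 < 6 ^ 12 * X := by
    by_contra hcon
    exact hmin ⟨by omega, not_lt.1 hcon⟩
  refine ⟨hlt, ?_⟩
  obtain ⟨g, hg⟩ : ∃ g, h = g + 1 := ⟨h - 1, by omega⟩
  have hg1 : h - 1 = g := by omega
  rw [hg1] at hlt
  set T := g ^ 4 / 144 with hT
  have hT1 : T * 144 ≤ g ^ 4 := Nat.div_mul_le_self _ _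
  have hT2 : g ^ 4 < (T + 1) * 144 := by
    have := Nat.lt_div_mul_add (a := g ^ 4) (b := 144) (by norm_num)
    rw [add_mul, one_mul]
    exact this
  have hg7 : 7 ≤ g := by omega
  have hg4 : 7 ^ 4 ≤ g ^ 4 := Nat.pow_le_pow_left hg7 4
  have hT5 : 5 ≤ T := by
    norm_num at hg4
    omega
  have hX : 3456 * T ^ 6 ≤ X := by
    have h1 : (T * 144) ^ 6 ≤ g ^ 24 := by
      calc (T * 144) ^ 6 ≤ (g ^ 4) ^ 6 := Nat.pow_le_pow_left hT1 6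
        _ = g ^ 24 := by ring
    have h2 : (T * 144) ^ 6 = 6 ^ 12 * (4096 * T ^ 6) := by ring
    have h3 : 6 ^ 12 * (4096 * T ^ 6) < 6 ^ 12 * X := by
      rw [← h2]
      exact h1.trans_lt hlt
    have h4 : 4096 * T ^ 6 < X := Nat.lt_of_mul_lt_mul_left h3
    omega
  have hlow := lower hT5 hX
  have hh4 : h ^ 4 ≤ 4608 * T := by
    have h1 : h ≤ 2 * g := by omega
    calc h ^ 4 ≤ (2 * g) ^ 4 := Nat.pow_le_pow_left h1 4
      _ = 16 * g ^ 4 := by ring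
      _ ≤ 16 * ((T + 1) * 144) := Nat.mul_le_mul_left _ hT2.le
      _ ≤ 4608 * T := by omega
  have hh4r : (h : ℝ) ^ 4 ≤ 4608 * (T : ℝ) := by exact_mod_cast hh4
  calc (h : ℝ) ^ 8 = ((h : ℝ) ^ 4) ^ 2 := by ring
    _ ≤ (4608 * (T : ℝ)) ^ 2 := pow_le_pow_left₀ (by positivity) hh4r 2
    _ = 4608 ^ 2 * (T : ℝ) ^ 2 := by ring
    _ ≤ 4608 ^ 2 * (24 * ((FS X).card : ℝ)) := mul_le_mul_of_nonneg_left hlow (by norm_num)
    _ = _ := by ring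

/-- **the averages** -/
theorem average {R : ℤ × ℤ → ℝ} (hR : ∀ t, 0 ≤ R t) {C : ℝ} (hC0 : 0 ≤ C)
    (hC : ∀ (x : ℤ × ℤ) (X : ℕ), 1 ≤ X → x.1.natAbs ≤ X ^ 9 → x.2.natAbs ≤ X ^ 9 →
      ∑ t ∈ UF.SS x X, R t ≤ C * (X : ℝ) ^ 2)
    {w : ℤ × ℤ → ℝ} (hw : ∀ c t, UH.Rel c t → w c ≤ R t) :
    ∃ C' : ℝ, ∀ X : ℕ, ∑ c ∈ FS X, w c ≤ C' * (FS X).card := by
  refine ⟨96 * C * 7 ^ 8 + 96 * C * (4608 ^ 2 * 24), fun X => ?_⟩
  obtain ⟨h, h2, hX, h8⟩ := scale X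
  have hu := upper hR hC0 hC hw h2 hX
  by_cases hK : (FS X).card = 0
  · rw [card_eq_zero.1 hK]
    simp
  have hK1 : (1 : ℝ) ≤ ((FS X).card : ℝ) := by exact_mod_cast Nat.one_le_iff_ne_zero.2 hK
  rcases Nat.lt_or_ge h 8 with hlt | hge
  · have h3 : (h : ℝ) ^ 8 ≤ 7 ^ 8 := by
      apply pow_le_pow_left₀ (by positivity)
      exact_mod_cast (by omega : h ≤ 7)
    calc _ ≤ 96 * C * (h : ℝ) ^ 8 := hu
      _ ≤ 96 * C * 7 ^ 8 := mul_le_mul_of_nonneg_left h3 (by positivity)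
      _ ≤ 96 * C * 7 ^ 8 * (FS X).card := le_mul_of_one_le_right (by positivity) hK1
      _ ≤ _ := by
        rw [add_mul]
        have : 0 ≤ 96 * C * (4608 ^ 2 * 24) * ((FS X).card : ℝ) := by positivity
        linarith
  · have h3 := (h8 hge).2
    calc _ ≤ 96 * C * (h : ℝ) ^ 8 := hu
      _ ≤ 96 * C * (4608 ^ 2 * 24 * ((FS X).card : ℝ)) :=
        mul_le_mul_of_nonneg_left h3 (by positivity)
      _ ≤ _ := by
        rw [add_mul]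
        have : 0 ≤ 96 * C * 7 ^ 8 * ((FS X).card : ℝ) := by positivity
        linarith

/-- **the number of the curves** -/
theorem number {C : ℝ} (hC0 : 0 ≤ C)
    (hC : ∀ (x : ℤ × ℤ) (X : ℕ), 1 ≤ X → x.1.natAbs ≤ X ^ 9 → x.2.natAbs ≤ X ^ 9 →
      ∑ t ∈ UF.SS x X, UF.RR t ≤ C * (X : ℝ) ^ 2) :
    ∃ c C' : ℝ, 0 < c ∧ ∀ X : ℕ, 7 ^ 24 ≤ X → c * (X : ℝ) ^ (1 / 3 : ℝ) ≤ (FS X).card ∧
      ((FS X).card : ℝ) ≤ C' * (X : ℝ) ^ (1 / 3 : ℝ) := by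
  refine ⟨1 / (4608 ^ 2 * 24) * 6 ^ 4, 96 * C * (2 ^ 8 * 6 ^ 4), by norm_num, fun X hX0 => ?_⟩
  obtain ⟨h, h2, hX, h8'⟩ := scale X
  have hu := upper (R := UF.RR) UF.RR_nonneg hC0 hC (w := fun _ => 1) (fun c t hr => by
    unfold UF.RR
    exact one_le_pow₀ (by norm_num)) h2 hX
  rw [sum_const, nsmul_eq_mul, mul_one] at hu
  have h8 : 8 ≤ h := by
    by_contra hcon
    have h7 : h ≤ 7 := by omega
    have h3 : h ^ 24 ≤ 7 ^ 24 := Nat.pow_le_pow_left h7 24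
    have h4 : 6 ^ 12 * X ≤ 7 ^ 24 := hX.trans h3
    have h5 : X < 6 ^ 12 * X := by omega
    omega
  obtain ⟨hlt, hlow⟩ := h8' h8
  set Z : ℝ := (X : ℝ) ^ (1 / 3 : ℝ) with hZ
  have hX0r : (0 : ℝ) ≤ X := Nat.cast_nonneg X
  have hZ0 : 0 ≤ Z := by positivity
  have hZ3 : Z ^ 3 = X := by
    rw [hZ, ← Real.rpow_natCast, ← Real.rpow_mul hX0r]
    norm_num
  constructor
  · have h1 : (6 ^ 4 * Z) ^ 3 ≤ ((h : ℝ) ^ 8) ^ 3 := by
      have : (6 : ℝ) ^ 12 * X ≤ (h : ℝ) ^ 24 := by exact_mod_cast hX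
      calc (6 ^ 4 * Z) ^ 3 = 6 ^ 12 * Z ^ 3 := by ring
        _ = 6 ^ 12 * (X : ℝ) := by rw [hZ3]
        _ ≤ (h : ℝ) ^ 24 := this
        _ = _ := by ring
    have h3 : 6 ^ 4 * Z ≤ (h : ℝ) ^ 8 :=
      (pow_le_pow_iff_left₀ (by positivity) (by positivity) (by norm_num)).1 h1
    have h4 := h3.trans hlow
    rw [mul_assoc, one_div, inv_mul_le_iff₀ (by norm_num)]
    exact h4
  · obtain ⟨g, hg⟩ : ∃ g, h = g + 1 := ⟨h - 1, by omega⟩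
    have hg1 : h - 1 = g := by omega
    rw [hg1] at hlt
    have h1 : ((g : ℝ) ^ 8) ^ 3 ≤ (6 ^ 4 * Z) ^ 3 := by
      have : (g : ℝ) ^ 24 ≤ (6 : ℝ) ^ 12 * X := by exact_mod_cast hlt.le
      calc ((g : ℝ) ^ 8) ^ 3 = (g : ℝ) ^ 24 := by ring
        _ ≤ 6 ^ 12 * (X : ℝ) := this
        _ = 6 ^ 12 * Z ^ 3 := by rw [hZ3]
        _ = _ := by ring
    have h3 : (g : ℝ) ^ 8 ≤ 6 ^ 4 * Z :=
      (pow_le_pow_iff_left₀ (by positivity) (by positivity) (by norm_num)).1 h1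
    have h4 : (h : ℝ) ≤ 2 * g := by exact_mod_cast (by omega : h ≤ 2 * g)
    calc ((FS X).card : ℝ) ≤ 96 * C * (h : ℝ) ^ 8 := hu
      _ ≤ 96 * C * (2 * g) ^ 8 := by gcongr
      _ = 96 * C * (2 ^ 8 * (g : ℝ) ^ 8) := by ring
      _ ≤ 96 * C * (2 ^ 8 * (6 ^ 4 * Z)) := by gcongr
      _ = _ := by ring

end Run7.h318.DI
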