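import Mathlib
import Pool.Agent.Run7.h438.TT2
import Pool.Agent.Run7.h318.DI.C

/-!
# The curves with torsion group exactly `Z/2 x Z/2`, ordered by the minimal discriminant

The lower bound for the number of the curves is the one of helper438 (`Pool/Agent/Run7/h438/TT2.lean`).
-/

set_option autoImplicit false

namespace Run7.h318.DI

open Finset
open Run7.h69
open Pool.Agent.W307.RT
open Run7.h438.TT (ExactT Ex)

open Classical in
/-- the curves with torsion group exactly `Z/2 x Z/2` -/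
noncomputable def ES (X : ℕ) : Finset (ℤ × ℤ) := (FS X).filter (fun c => ExactT (Sh c.1 c.2))

/-- **lower bound** -/
lemma lowerE {X T : ℕ} (hT : 5 ≤ T) (hX : 3456 * (3 * T) ^ 6 ≤ X) :
    (T : ℝ) ^ 2 ≤ 24 * ((ES X).card : ℝ) := by
  classical
  have h1 := Run7.h438.TT.low T (108 * (3 * T) ^ 6) hT (le_refl _)
  have hsub : Ex (108 * (3 * T) ^ 6) ⊆ ES X := by
    intro c hc
    unfold Ex at hc
    rw [mem_filter] at hc
    obtain ⟨hc, hex⟩ := hc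
    unfold Cv at hc
    rw [mem_filter] at hc
    obtain ⟨-, hD, hA, hB, hmin, hT2⟩ := hc
    unfold ES
    rw [mem_filter, mem_FS]
    refine ⟨⟨hD, hmin, hT2, (minDisc_le c.1 c.2).trans ?_⟩, hex⟩
    refine le_trans ?_ hX
    have h2 : (((16 * (4 * c.1 ^ 3 + 27 * c.2 ^ 2)).natAbs : ℕ) : ℤ) ≤
        ((3456 * (3 * T) ^ 6 : ℕ) : ℤ) := by
      rw [Int.natCast_natAbs, abs_mul]
      have h3 : |4 * c.1 ^ 3 + 27 * c.2 ^ 2| ≤ 4 * |c.1| ^ 3 + 27 * c.2 ^ 2 := by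
        refine (abs_add_le _ _).trans ?_
        rw [abs_mul, abs_mul, abs_pow, abs_of_nonneg (sq_nonneg c.2)]
        norm_num
      push_cast at hA hB ⊢
      have h16 : |(16 : ℤ)| = 16 := by norm_num
      rw [h16]
      linarith
    exact_mod_cast h2
  have h4 : ((Ex (108 * (3 * T) ^ 6)).card : ℝ) ≤ ((ES X).card : ℝ) := by
    exact_mod_cast card_le_card hsub
  linarith

/-- the scale -/
lemma scaleE (X : ℕ) : ∃ h : ℕ, 2 ≤ h ∧ 6 ^ 12 * X ≤ h ^ 24 ∧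
    (8 ≤ h → (h : ℝ) ^ 8 ≤ 13824 ^ 2 * 24 * ((ES X).card : ℝ)) := by
  classical
  have hex : ∃ h : ℕ, 2 ≤ h ∧ 6 ^ 12 * X ≤ h ^ 24 :=
    ⟨6 ^ 12 * X + 2, by omega, le_trans (by omega) (Nat.le_self_pow (by norm_num) _)⟩
  refine ⟨Nat.find hex, (Nat.find_spec hex).1, (Nat.find_spec hex).2, fun h8 => ?_⟩
  set h := Nat.find hex with hh
  have hmin := Nat.find_min hex (m := h - 1) (by omega)
  have hlt : (h - 1) ^ 24 < 6 ^ 12 * X := by
    by_contra hcon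
    exact hmin ⟨by omega, not_lt.1 hcon⟩
  obtain ⟨g, hg⟩ : ∃ g, h = g + 1 := ⟨h - 1, by omega⟩
  have hg1 : h - 1 = g := by omega
  rw [hg1] at hlt
  set T := g ^ 4 / 432 with hT
  have hT1 : T * 432 ≤ g ^ 4 := Nat.div_mul_le_self _ _
  have hT2 : g ^ 4 < (T + 1) * 432 := by
    have := Nat.lt_div_mul_add (a := g ^ 4) (b := 432) (by norm_num)
    rw [add_mul, one_mul]
    exact this
  have hg7 : 7 ≤ g := by omega
  have hg4 : 7 ^ 4 ≤ g ^ 4 := Nat.pow_le_pow_left hg7 4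
  have hT5 : 5 ≤ T := by
    norm_num at hg4
    omega
  have hX : 3456 * (3 * T) ^ 6 ≤ X := by
    have h1 : (T * 432) ^ 6 ≤ g ^ 24 := by
      calc (T * 432) ^ 6 ≤ (g ^ 4) ^ 6 := Nat.pow_le_pow_left hT1 6
        _ = g ^ 24 := by ring
    have h2 : (T * 432) ^ 6 = 6 ^ 12 * (4096 * (3 * T) ^ 6) := by ring
    have h3 : 6 ^ 12 * (4096 * (3 * T) ^ 6) < 6 ^ 12 * X := by
      rw [← h2]
      exact h1.trans_lt hlt
    have h4 : 4096 * (3 * T) ^ 6 < X := Nat.lt_of_mul_lt_mul_left h3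
    omega
  have hlow := lowerE hT5 hX
  have hh4 : h ^ 4 ≤ 13824 * T := by
    have h1 : h ≤ 2 * g := by omega
    calc h ^ 4 ≤ (2 * g) ^ 4 := Nat.pow_le_pow_left h1 4
      _ = 16 * g ^ 4 := by ring
      _ ≤ 16 * ((T + 1) * 432) := Nat.mul_le_mul_left _ hT2.le
      _ ≤ 13824 * T := by omega
  have hh4r : (h : ℝ) ^ 4 ≤ 13824 * (T : ℝ) := by exact_mod_cast hh4
  calc (h : ℝ) ^ 8 = ((h : ℝ) ^ 4) ^ 2 := by ring
    _ ≤ (13824 * (T : ℝ)) ^ 2 := pow_le_pow_left₀ (by positivity) hh4r 2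
    _ = 13824 ^ 2 * (T : ℝ) ^ 2 := by ring
    _ ≤ 13824 ^ 2 * (24 * ((ES X).card : ℝ)) := mul_le_mul_of_nonneg_left hlow (by norm_num)
    _ = _ := by ring

/-- **the averages**: the sum over all the curves with full rational 2-torsion is at most a constant
times the number of those with torsion group `Z/2 x Z/2`, if there is one -/
theorem averageE {R : ℤ × ℤ → ℝ} (hR : ∀ t, 0 ≤ R t) {C : ℝ} (hC0 : 0 ≤ C)
    (hC : ∀ (x : ℤ × ℤ) (X : ℕ), 1 ≤ X → x.1.natAbs ≤ X ^ 9 → x.2.natAbs ≤ X ^ 9 →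
      ∑ t ∈ UF.SS x X, R t ≤ C * (X : ℝ) ^ 2)
    {w : ℤ × ℤ → ℝ} (hw : ∀ c t, UH.Rel c t → w c ≤ R t) :
    ∃ C' : ℝ, ∀ X : ℕ, (ES X).card ≠ 0 → ∑ c ∈ FS X, w c ≤ C' * (ES X).card := by
  refine ⟨96 * C * 7 ^ 8 + 96 * C * (13824 ^ 2 * 24), fun X hK => ?_⟩
  obtain ⟨h, h2, hX, h8⟩ := scaleE X
  have hu := upper hR hC0 hC hw h2 hX
  have hK1 : (1 : ℝ) ≤ ((ES X).card : ℝ) := by exact_mod_cast Nat.one_le_iff_ne_zero.2 hK
  rcases Nat.lt_or_ge h 8 with hlt | hge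
  · have h3 : (h : ℝ) ^ 8 ≤ 7 ^ 8 := by
      apply pow_le_pow_left₀ (by positivity)
      exact_mod_cast (by omega : h ≤ 7)
    calc _ ≤ 96 * C * (h : ℝ) ^ 8 := hu
      _ ≤ 96 * C * 7 ^ 8 := mul_le_mul_of_nonneg_left h3 (by positivity)
      _ ≤ 96 * C * 7 ^ 8 * (ES X).card := le_mul_of_one_le_right (by positivity) hK1
      _ ≤ _ := by
        rw [add_mul]
        have : 0 ≤ 96 * C * (13824 ^ 2 * 24) * ((ES X).card : ℝ) := by positivity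
        linarith
  · have h3 := h8 hge
    calc _ ≤ 96 * C * (h : ℝ) ^ 8 := hu
      _ ≤ 96 * C * (13824 ^ 2 * 24 * ((ES X).card : ℝ)) :=
        mul_le_mul_of_nonneg_left h3 (by positivity)
      _ ≤ _ := by
        rw [add_mul]
        have : 0 ≤ 96 * C * 7 ^ 8 * ((ES X).card : ℝ) := by positivity
        linarith

/-- **the number of the curves** with torsion group `Z/2 x Z/2` -/
theorem numberE : ∃ c : ℝ, 0 < c ∧ ∀ X : ℕ, 7 ^ 24 ≤ X →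
    c * (X : ℝ) ^ (1 / 3 : ℝ) ≤ (ES X).card := by
  refine ⟨1 / (13824 ^ 2 * 24) * 6 ^ 4, by norm_num, fun X hX0 => ?_⟩
  obtain ⟨h, h2, hX, h8'⟩ := scaleE X
  have h8 : 8 ≤ h := by
    by_contra hcon
    have h7 : h ≤ 7 := by omega
    have h3 : h ^ 24 ≤ 7 ^ 24 := Nat.pow_le_pow_left h7 24
    have h4 : 6 ^ 12 * 7 ^ 24 ≤ 6 ^ 12 * X := Nat.mul_le_mul_left _ hX0
    have h5 : 6 ^ 12 * 7 ^ 24 ≤ 7 ^ 24 := (h4.trans hX).trans h3
    norm_num at h5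
  have hl := h8' h8
  have hXr : (6 : ℝ) ^ 12 * X ≤ (h : ℝ) ^ 24 := by exact_mod_cast hX
  have h9 : (6 : ℝ) ^ 4 * (X : ℝ) ^ (1 / 3 : ℝ) ≤ (h : ℝ) ^ 8 := by
    have e1 : ((6 : ℝ) ^ 12 * X) ^ (1 / 3 : ℝ) = (6 : ℝ) ^ 4 * (X : ℝ) ^ (1 / 3 : ℝ) := by
      rw [Real.mul_rpow (by positivity) (by positivity)]
      congr 1
      rw [← Real.rpow_natCast, ← Real.rpow_mul (by norm_num), ← Real.rpow_natCast]
      norm_num
    have e2 : ((h : ℝ) ^ 24) ^ (1 / 3 : ℝ) = (h : ℝ) ^ 8 := by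
      rw [← Real.rpow_natCast, ← Real.rpow_mul (by positivity), ← Real.rpow_natCast]
      norm_num
    rw [← e1, ← e2]
    exact Real.rpow_le_rpow (by positivity) hXr (by norm_num)
  have h10 := h9.trans hl
  have e : (1 : ℝ) / (13824 ^ 2 * 24) * 6 ^ 4 * (X : ℝ) ^ (1 / 3 : ℝ) =
      1 / (13824 ^ 2 * 24) * ((6 : ℝ) ^ 4 * (X : ℝ) ^ (1 / 3 : ℝ)) := by ring
  rw [e]
  calc (1 : ℝ) / (13824 ^ 2 * 24) * ((6 : ℝ) ^ 4 * (X : ℝ) ^ (1 / 3 : ℝ))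
      ≤ 1 / (13824 ^ 2 * 24) * (13824 ^ 2 * 24 * ((ES X).card : ℝ)) :=
        mul_le_mul_of_nonneg_left h10 (by norm_num)
    _ = (ES X).card := by ring

end Run7.h318.DI
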